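import Pool.Agent.P8H50.NK.PDefs
import Pool.Agent.TH143.EL.Fld
import Pool.Agent.Y221.BD.Defs
import Pool.Agent.W602.GT.Der

/-!
Package BRO of project NK (helper50), the core: entire curves in the covers of products of projective
spaces (after `brody_main` of `Y221/BD/Str.lean`).
-/

set_option autoImplicit false
set_option linter.overlappingInstances false

open Filter

namespace Pool.Agent.P8H93.NK

open Pool.Agent.P8H50.NK Pool.Agent.W602.GT Pool.Agent.TH143.EL
open Pool.Agent.Y221.BD (EntireCurve PseudoBrody)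

/-- values of forms at the point of the field of meromorphic functions -/
theorem val_cl {M : ℕ} {f : Fin (M + 1) → ℂ → ℂ} (hf : ∀ i, Meromorphic (f i))
    (G : MvPolynomial (Fin (M + 1)) ℂ) :
    val (fun i => cl (f i) (hf i)) G =
      cl (fun t => MvPolynomial.eval (fun i => f i t) G) (mero_eval hf G) := by
  unfold Pool.Agent.W602.GT.val
  let u : Fin (M + 1) → MerS := fun i => ⟨f i, hf i⟩
  have h1 : ((Ideal.Quotient.mkₐ ℂ MJ).comp (MvPolynomial.aeval u)) =
      MvPolynomial.aeval (fun i => cl (f i) (hf i)) := by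
    apply MvPolynomial.algHom_ext
    intro i
    rw [AlgHom.comp_apply, MvPolynomial.aeval_X, MvPolynomial.aeval_X]
    rfl
  rw [← h1, AlgHom.comp_apply]
  change Ideal.Quotient.mk MJ _ = Ideal.Quotient.mk MJ _
  congr 1
  apply Subtype.ext
  funext t
  have h2 : (evS t).comp (MvPolynomial.aeval u) = MvPolynomial.aeval (fun i => f i t) := by
    apply MvPolynomial.algHom_ext
    intro i
    rw [AlgHom.comp_apply, MvPolynomial.aeval_X, MvPolynomial.aeval_X]
    rfl
  have h3 := DFunLike.congr_fun h2 G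
  rw [AlgHom.comp_apply] at h3
  exact h3.trans (by rw [MvPolynomial.aeval_eq_eval])

/-- elements which satisfy an equation with constant coefficients -/
theorem alg_of_const {L σ : Type} [Field L] [Algebra ℂ L] {y : σ → L} {c : σ → ℂ}
    (hc : ∀ p, y p = algebraMap ℂ L (c p)) {u : L} {D : ℕ} {g : ℕ → MvPolynomial σ ℂ}
    (h1 : MvPolynomial.aeval y (g D) ≠ 0)
    (h2 : ∑ j ∈ Finset.range (D + 1), MvPolynomial.aeval y (g j) * u ^ j = 0) : IsAlgebraic ℂ u := by
  classical
  have hev : ∀ G : MvPolynomial σ ℂ, MvPolynomial.aeval y G = algebraMap ℂ L (MvPolynomial.eval c G) := by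
    intro G
    have h3 : y = fun p => algebraMap ℂ L (c p) := funext hc
    rw [h3]
    induction G using MvPolynomial.induction_on with
    | C a => simp
    | add p q hp hq => rw [map_add, map_add, map_add, hp, hq]
    | mul_X p i hp => rw [map_mul, map_mul, map_mul, hp, MvPolynomial.aeval_X, MvPolynomial.eval_X]
  refine ⟨∑ j ∈ Finset.range (D + 1), Polynomial.monomial j (MvPolynomial.eval c (g j)), ?_, ?_⟩
  · intro h0
    have h4 := congrArg (fun p => Polynomial.coeff p D) h0
    simp only [Polynomial.finsetSum_coeff, Polynomial.coeff_monomial, Polynomial.coeff_zero] at h4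
    rw [Finset.sum_ite_eq_of_mem' _ _ _ (Finset.mem_range.2 (Nat.lt_succ_self D))] at h4
    apply h1
    rw [hev, h4, map_zero]
  · rw [map_sum, ← h2]
    refine Finset.sum_congr rfl fun j _ => ?_
    rw [Polynomial.aeval_monomial, hev]

/-- **Entire curves**, the core. -/
theorem bro_core {s : ℕ} {n : Fin s → ℕ} {r : ℕ} {D : PDat ℂ n r}
    (hmk : ∀ (y : ∀ j, Fin (n j + 1) → MK) (z : Fin r → MK), D.Pt y z →
      ∀ j a, ∃ c : ℂ, y j a = algebraMap ℂ MK c)
    {K : Type} [Field K] [Algebra ℂ K] {M : ℕ} {v : Fin (M + 1) → K} {i1 : Fin (M + 1)}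
    {R : MvPolynomial (Fin (M + 1)) ℂ} {d : Fin (M + 1) → ℕ}
    {g : Fin (M + 1) → ℕ → MvPolynomial (Σ j, Fin (n j + 1)) ℂ}
    (hmain : ∀ f : Fin (M + 1) → MK, (∃ j, f j ≠ 0) →
      (∀ H : MvPolynomial (Fin (M + 1)) ℂ, IsForm H → val v H = 0 → val f H = 0) → val f R ≠ 0 →
      f i1 ≠ 0 ∧ ∃ (y' : ∀ j, Fin (n j + 1) → MK) (z' : Fin r → MK), D.Pt y' z' ∧
        ∀ i, MvPolynomial.aeval (fl y') (g i (d i)) ≠ 0 ∧
          ∑ j ∈ Finset.range (d i + 1), MvPolynomial.aeval (fl y') (g i j) * (f i / f i1) ^ j = 0) :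
    ∀ f, EntireCurve v f → ∀ t, MvPolynomial.eval (fun i => f i t) R = 0 := by
  classical
  intro f hf t0
  by_contra hft
  have hmer : ∀ i, Meromorphic (f i) := fun i t =>
    ((hf.hol i).analyticAt t).meromorphicAt
  obtain ⟨z, hzdef⟩ : ∃ z : Fin (M + 1) → MK, z = fun i => cl (f i) (hmer i) := ⟨_, rfl⟩
  have hcont : ∀ G : MvPolynomial (Fin (M + 1)) ℂ,
      Continuous fun t => MvPolynomial.eval (fun i => f i t) G := fun G =>
    (MvPolynomial.continuous_eval G).comp (continuous_pi fun i => (hf.hol i).continuous)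
  have hvz : ∀ G, val z G = 0 ↔ ∀ t, MvPolynomial.eval (fun i => f i t) G = 0 := by
    intro G
    rw [hzdef, val_cl hmer G, cl_eq_zero]
    constructor
    · intro h t
      exact eq_of_codis (g := fun _ => 0) h (hcont G).continuousAt continuousAt_const
    · intro h
      exact Eventually.of_forall h
  have hzR : val z R ≠ 0 := by
    intro h0
    exact hft ((hvz _).1 h0 t0)
  have hzne : ∃ j, z j ≠ 0 := by
    obtain ⟨i, hi⟩ := hf.ne 0
    refine ⟨i, fun h0 => hi ?_⟩
    have h1 := (hvz (MvPolynomial.X i)).1 (by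
      unfold Pool.Agent.W602.GT.val
      rw [MvPolynomial.aeval_X]
      exact h0) 0
    rw [MvPolynomial.eval_X] at h1
    exact h1
  obtain ⟨hz1, y', z', hPt, hrel⟩ := hmain z hzne (fun H hH h0 => (hvz H).2 (hf.mem H hH h0)) hzR
  choose c hc using hmk y' z' hPt
  have hall : ∀ m, ∃ c : ℂ, z m = algebraMap ℂ MK c * z i1 := by
    intro m
    have h2 : IsAlgebraic ℂ (z m / z i1) :=
      alg_of_const (y := fl y') (c := fun p => c p.1 p.2) (fun p => hc p.1 p.2) (hrel m).1 (hrel m).2
    obtain ⟨c, hc⟩ := const_of_algebraic h2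
    refine ⟨c, ?_⟩
    rw [← hc]
    field_simp
  have hallf : ∀ m, ∃ c : ℂ, ∀ t, f m t = c * f i1 t := by
    intro m
    obtain ⟨c, hc⟩ := hall m
    refine ⟨c, fun t => ?_⟩
    rw [hzdef] at hc
    simp only at hc
    rw [← cl_const, cl_mul, cl_eq] at hc
    exact eq_of_codis (f := f m) (g := fun t => c * f i1 t) hc (hf.hol m).continuous.continuousAt
      ((continuous_const.mul (hf.hol i1).continuous).continuousAt)
  obtain ⟨i, j, a, b, hab⟩ := hf.nonconst
  obtain ⟨c, hc⟩ := hallf i
  obtain ⟨c', hc'⟩ := hallf j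
  apply hab
  rw [hc, hc, hc', hc']
  ring

end Pool.Agent.P8H93.NK
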