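import Pool.Agent.P8H50.NK.Stm4
import Pool.Agent.P8H93.NK.BroCore

/-!
Package BRO of project NK (helper50).
-/

set_option autoImplicit false
set_option linter.overlappingInstances false

namespace Pool.Agent.P8H93.NK

open Pool.Agent.P8H50.NK

theorem bro : S_SPM → S_MKC → S_BRO := by
  intro hspm hmk s n r D K _ _ y z hD hPt halg M v hv hgen
  obtain ⟨i1, R, d, g, hR, hvR, hmain⟩ := hspm ℂ s n r D K y z hD hPt halg M v hv hgen
  exact ⟨R, hR, hvR, bro_core (hmk s n r D hD)
    (fun f h1 h2 h3 => hmain Pool.Agent.TH143.EL.MK f ⟨h1, h2⟩ h3)⟩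

end Pool.Agent.P8H93.NK
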